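/-
helper50. MRW: module EXT (shorten a walk to a path).
-/
import Pool.Agent.H74.MRW.Def

set_option autoImplicit false

namespace Pool.MRW

open Finset

/-- walks from `x` to `y` of length `L` through the points of `p` -/
def ExtWalk {V : Type} (A : V → V → Prop) (n : ℕ) (p : ℕ → V) (x y : V) (L : ℕ)
    (q : ℕ → V) : Prop :=
  q 0 = x ∧ q L = y ∧ (∀ t, t < L → A (q t) (q (t + 1))) ∧ ∀ t, t ≤ L → ∃ s, s ≤ n ∧ q t = p s

theorem extWalk_cut {V : Type} {A : V → V → Prop} {n : ℕ} {p : ℕ → V} {x y : V} {L : ℕ}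
    {q : ℕ → V} (h : ExtWalk A n p x y L q) {s t : ℕ} (hst : s < t) (ht : t ≤ L)
    (he : q s = q t) : ∃ q', ExtWalk A n p x y (L - (t - s)) q' := by
  obtain ⟨h0, hL, hA, hp⟩ := h
  refine ⟨fun i => if i ≤ s then q i else q (i + (t - s)), ?_, ?_, ?_, ?_⟩
  · simp [h0]
  · by_cases hc : L - (t - s) ≤ s
    · have e1 : t = L := by omega
      have e2 : L - (t - s) = s := by omega
      simp only [e2, le_refl, if_true]
      rw [he, e1, hL]
    · have e2 : L - (t - s) + (t - s) = L := by omega
      simp only [hc, if_false, e2, hL]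
  · intro i hi
    by_cases h1 : i + 1 ≤ s
    · have h2 : i ≤ s := by omega
      simp only [h1, h2, if_true]
      exact hA i (by omega)
    · by_cases h2 : i ≤ s
      · have e1 : i = s := by omega
        have e2 : i + 1 + (t - s) = t + 1 := by omega
        simp only [h1, h2, if_true, if_false, e2]
        rw [e1, he]
        exact hA t (by omega)
      · have e2 : i + 1 + (t - s) = i + (t - s) + 1 := by omega
        simp only [h1, h2, if_false, e2]
        exact hA _ (by omega)
  · intro i hi
    by_cases h2 : i ≤ s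
    · simp only [h2, if_true]
      exact hp i (by omega)
    · simp only [h2, if_false]
      exact hp _ (by omega)

theorem t_ext : EXTStmt := by
  classical
  intro V A n p x y hxy h0 hn hA
  have hex : ∃ L, ∃ q, ExtWalk A n p x y L q :=
    ⟨n, p, h0, hn, hA, fun t ht => ⟨t, ht, rfl⟩⟩
  obtain ⟨q, hq⟩ := Nat.find_spec hex
  set L := Nat.find hex with hLdef
  have hmin : ∀ L', L' < L → ¬ ∃ q, ExtWalk A n p x y L' q := fun L' hL' => Nat.find_min hex hL'
  have hinj' : ∀ s t, s < t → t ≤ L → q s ≠ q t := by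
    intro s t hst ht he
    exact hmin (L - (t - s)) (by omega) (extWalk_cut hq hst ht he)
  have hinj : ∀ s t, s ≤ L → t ≤ L → q s = q t → s = t := by
    intro s t hs ht he
    rcases lt_trichotomy s t with h | h | h
    · exact absurd he (hinj' s t h ht)
    · exact h
    · exact absurd he.symm (hinj' t s h hs)
  obtain ⟨hq0, hqL, hqA, hqp⟩ := hq
  refine ⟨L, q, hq0, hqL, hqA, hinj, ?_⟩
  intro t ht0 htL
  have hx : q t ≠ x := by
    rw [← hq0]
    exact (hinj' 0 t ht0 htL.le).symm
  have hy : q t ≠ y := by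
    rw [← hqL]
    exact hinj' t L htL le_rfl
  refine ⟨hx, hy, ?_⟩
  obtain ⟨s, hs, hse⟩ := hqp t htL.le
  refine ⟨s, ?_, ?_, hse⟩
  · rcases Nat.eq_zero_or_pos s with h | h
    · exact absurd (by rw [hse, h, h0]) hx
    · exact h
  · rcases lt_or_eq_of_le hs with h | h
    · exact h
    · exact absurd (by rw [hse, h, hn]) hy

end Pool.MRW
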